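import Mathlib
import Pool.Agent.R465.PrimeSum
import Pool.Agent.R465.KL
set_option autoImplicit false

/-!
# The abundancy increases infinitely often along the record setters of the scaled surplus

Let `P` be the product of the odd primes `≤ m`.  Among the odd numbers `k ≤ P` the product
`H(k) = ∏_{p ∣ k} p / (p - 1)` is largest for `k = P`, hence `g(k) < g(P)` for all odd `k < P` if `P`
is abundant, and so `P` belongs to the set `B₁` of the record setters.  As the abundancy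
`h(P) = ∏_{2 < p ≤ m} (1 + 1 / p)` is unbounded, `h` is not eventually non-increasing on `B₁`.
-/

namespace Pool.Agent.Results.MP_04e67f_nt.InfinitelyOften
open Finset

/-- the abundancy `h(n) = σ(n) / n` -/
noncomputable def h (n : ℕ) : ℝ := ((∑ d ∈ n.divisors, d : ℕ) : ℝ) / (n : ℝ)

/-- `H(n) = ∏_{p ∣ n} p / (p - 1)` -/
noncomputable def H (n : ℕ) : ℝ := ∏ p ∈ n.primeFactors, (p : ℝ) / ((p : ℝ) - 1)

/-- the surplus `S(n) = H(n) - 2` -/
noncomputable def S (n : ℕ) : ℝ := H n - 2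

/-- the scaled surplus `g(n) = S(n) n ^ (1 / 2)` -/
noncomputable def g (n : ℕ) : ℝ := S n * Real.sqrt (n : ℝ)

/-- `n` is non-deficient: `n > 0` and `σ(n) ≥ 2 n` -/
def NonDeficient (n : ℕ) : Prop := 0 < n ∧ 2 * n ≤ ∑ d ∈ n.divisors, d

/-- the odd non-deficient record setters for `g` -/
def B₁ : Set ℕ :=
  {n | Odd n ∧ NonDeficient n ∧ ∀ k < n, Odd k → NonDeficient k → g k < g n}

/-- the elements of `B₁` in increasing order; `b 0 = 945` is the first one -/
noncomputable def b (j : ℕ) : ℕ := Nat.nth (fun n => n ∈ B₁) j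

open Pool.Agent.R465 (prs mem_prs exists_sum_gt)

/-- the product of the odd primes `≤ m` -/
def P (m : ℕ) : ℕ := ∏ p ∈ prs 2 (m + 1), p

theorem prs_prime {M X : ℕ} : ∀ p ∈ prs M X, p.Prime := fun _ hp => (mem_prs.1 hp).2.1

theorem P_pos (m : ℕ) : 0 < P m := Finset.prod_pos fun p hp => (prs_prime p hp).pos

theorem primeFactors_P (m : ℕ) : (P m).primeFactors = prs 2 (m + 1) :=
  Nat.primeFactors_prod prs_prime

theorem odd_P (m : ℕ) : Odd (P m) := by
  unfold P
  apply Finset.prod_induction _ Odd (fun a b ha hb => ha.mul hb) odd_one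
  intro p hp
  have := mem_prs.1 hp
  exact this.2.1.odd_of_ne_two (by omega)

theorem h_P (m : ℕ) : h (P m) = ∏ p ∈ prs 2 (m + 1), (1 + 1 / (p : ℝ)) := by
  have h1 : (∑ d ∈ (P m).divisors, d) = ∏ p ∈ prs 2 (m + 1), (p + 1) :=
    Pool.Agent.R465.KL.sg_prod _ prs_prime
  unfold h
  rw [h1]
  unfold P
  push_cast
  rw [← Finset.prod_div_distrib]
  refine Finset.prod_congr rfl fun p hp => ?_
  have : (p : ℝ) ≠ 0 := by exact_mod_cast (prs_prime p hp).ne_zero
  field_simp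

theorem one_add_sum_le {s : Finset ℕ} : 1 + ∑ p ∈ s, 1 / (p : ℝ) ≤ ∏ p ∈ s, (1 + 1 / (p : ℝ)) := by
  classical
  induction s using Finset.induction_on with
  | empty => simp
  | insert p s hp ih =>
    rw [Finset.sum_insert hp, Finset.prod_insert hp]
    have h1 : (0 : ℝ) ≤ 1 / (p : ℝ) := by positivity
    have h2 : (0 : ℝ) ≤ ∑ p ∈ s, 1 / (p : ℝ) := Finset.sum_nonneg fun p _ => by positivity
    nlinarith

theorem h_P_large (C : ℝ) : ∃ m, 2 ≤ m ∧ C < h (P m) := by
  obtain ⟨X, hX⟩ := exists_sum_gt 2 (max C 1)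
  have hX2 : 2 < X := by
    by_contra hcon
    have : prs 2 X = ∅ := by
      rw [Finset.eq_empty_iff_forall_notMem]
      intro p hp
      have := mem_prs.1 hp
      omega
    rw [this, Finset.sum_empty] at hX
    have := le_max_right C (1 : ℝ)
    linarith
  refine ⟨X - 1, by omega, ?_⟩
  rw [h_P]
  have h1 : X - 1 + 1 = X := by omega
  rw [h1]
  have h2 := one_add_sum_le (s := prs 2 X)
  have h3 := le_max_left C (1 : ℝ)
  linarith

theorem h_le_H (m : ℕ) : h (P m) ≤ H (P m) := by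
  rw [h_P]
  unfold H
  rw [primeFactors_P]
  refine Finset.prod_le_prod (fun p _ => by positivity) fun p hp => ?_
  have h1 := mem_prs.1 hp
  have h2 : (2 : ℝ) < p := by exact_mod_cast h1.2.2
  have h3 : (0 : ℝ) < (p : ℝ) - 1 := by linarith
  rw [le_div_iff₀ h3]
  have h4 : (1 + 1 / (p : ℝ)) * ((p : ℝ) - 1) = p - 1 / p := by
    field_simp; ring
  rw [h4]
  have : (0 : ℝ) < 1 / (p : ℝ) := by positivity
  linarith

/-- `H(k) ≤ H(P)` for odd `k < P` -/
theorem H_le {m k : ℕ} (hm : 2 ≤ m) (hk0 : 0 < k) (hk : k < P m) (hodd : Odd k) :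
    H k ≤ H (P m) := by
  classical
  unfold H
  rw [primeFactors_P]
  set K := k.primeFactors with hK
  set Q := prs 2 (m + 1) with hQ
  have hKp : ∀ p ∈ K, p.Prime := fun p hp => Nat.prime_of_mem_primeFactors hp
  have hK2 : ∀ p ∈ K, 2 < p := by
    intro p hp
    have h1 := (hKp p hp).two_le
    have h2 : p ≠ 2 := by
      rintro rfl
      exact (Nat.not_even_iff_odd.2 hodd) (even_iff_two_dvd.2 (Nat.dvd_of_mem_primeFactors hp))
    omega
  have hA : ∀ p ∈ K \ Q, m < p := by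
    intro p hp
    rw [Finset.mem_sdiff] at hp
    by_contra hcon
    exact hp.2 (mem_prs.2 ⟨by omega, hKp p hp.1, hK2 p hp.1⟩)
  have hB : ∀ p ∈ Q \ K, p ≤ m ∧ 2 < p := by
    intro p hp
    rw [Finset.mem_sdiff] at hp
    have := mem_prs.1 hp.1
    exact ⟨by omega, this.2.2⟩
  have hkK : ∏ p ∈ K, p ≤ k := Nat.le_of_dvd hk0 (Nat.prod_primeFactors_dvd k)
  have hC0 : 0 < ∏ p ∈ K ∩ Q, p :=
    Finset.prod_pos fun p hp => (hKp p (Finset.mem_of_mem_inter_left hp)).pos
  have h1 : ∏ p ∈ K \ Q, p < ∏ p ∈ Q \ K, p := by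
    have h2 : (∏ p ∈ K \ Q, p) * ∏ p ∈ K ∩ Q, p = ∏ p ∈ K, p := by
      rw [mul_comm]; exact Finset.prod_inter_mul_prod_sdiff K Q _
    have h3 : (∏ p ∈ Q \ K, p) * ∏ p ∈ K ∩ Q, p = ∏ p ∈ Q, p := by
      rw [mul_comm, Finset.inter_comm]; exact Finset.prod_inter_mul_prod_sdiff Q K _
    have h4 : (∏ p ∈ K \ Q, p) * ∏ p ∈ K ∩ Q, p < (∏ p ∈ Q \ K, p) * ∏ p ∈ K ∩ Q, p := by
      rw [h2, h3]
      exact lt_of_le_of_lt hkK hk
    exact Nat.lt_of_mul_lt_mul_right h4
  have hcard : (K \ Q).card ≤ (Q \ K).card := by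
    by_contra hcon
    push Not at hcon
    have h2 : ∏ p ∈ Q \ K, p ≤ m ^ (Q \ K).card := by
      calc ∏ p ∈ Q \ K, p ≤ ∏ _p ∈ Q \ K, m := Finset.prod_le_prod' fun p hp => (hB p hp).1
        _ = _ := by rw [Finset.prod_const]
    have h3 : m ^ (K \ Q).card ≤ ∏ p ∈ K \ Q, p := by
      calc m ^ (K \ Q).card = ∏ _p ∈ K \ Q, m := by rw [Finset.prod_const]
        _ ≤ _ := Finset.prod_le_prod' fun p hp => (hA p hp).le
    have h4 : m ^ (Q \ K).card ≤ m ^ (K \ Q).card := Nat.pow_le_pow_right (by omega) hcon.le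
    omega
  have hm' : (2 : ℝ) ≤ m := by exact_mod_cast hm
  have hm1 : (0 : ℝ) < (m : ℝ) - 1 := by linarith
  have e1 : ∏ p ∈ K \ Q, (p : ℝ) / ((p : ℝ) - 1) ≤ ((m : ℝ) / (m - 1)) ^ (K \ Q).card := by
    rw [← Finset.prod_const]
    refine Finset.prod_le_prod (fun p hp => ?_) fun p hp => ?_
    · have : (m : ℝ) < p := by exact_mod_cast hA p hp
      exact div_nonneg (by linarith) (by linarith)
    · have : (m : ℝ) < p := by exact_mod_cast hA p hp
      rw [div_le_div_iff₀ (by linarith) hm1]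
      nlinarith
  have e2 : ((m : ℝ) / (m - 1)) ^ (Q \ K).card ≤ ∏ p ∈ Q \ K, (p : ℝ) / ((p : ℝ) - 1) := by
    rw [← Finset.prod_const]
    refine Finset.prod_le_prod (fun p hp => ?_) fun p hp => ?_
    · exact div_nonneg (by linarith) (by linarith)
    · have h5 : (p : ℝ) ≤ m := by exact_mod_cast (hB p hp).1
      have h6 : (2 : ℝ) < p := by exact_mod_cast (hB p hp).2
      rw [div_le_div_iff₀ hm1 (by linarith)]
      nlinarith
  have e3 : ((m : ℝ) / (m - 1)) ^ (K \ Q).card ≤ ((m : ℝ) / (m - 1)) ^ (Q \ K).card := by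
    apply pow_le_pow_right₀ _ hcard
    rw [le_div_iff₀ hm1]; linarith
  have hC : 0 ≤ ∏ p ∈ K ∩ Q, (p : ℝ) / ((p : ℝ) - 1) := by
    refine Finset.prod_nonneg fun p hp => ?_
    have : (2 : ℝ) < p := by exact_mod_cast hK2 p (Finset.mem_of_mem_inter_left hp)
    exact div_nonneg (by linarith) (by linarith)
  calc ∏ p ∈ K, (p : ℝ) / ((p : ℝ) - 1) =
      (∏ p ∈ K ∩ Q, (p : ℝ) / ((p : ℝ) - 1)) * ∏ p ∈ K \ Q, (p : ℝ) / ((p : ℝ) - 1) :=
        (Finset.prod_inter_mul_prod_sdiff K Q _).symm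
    _ ≤ (∏ p ∈ K ∩ Q, (p : ℝ) / ((p : ℝ) - 1)) * ∏ p ∈ Q \ K, (p : ℝ) / ((p : ℝ) - 1) :=
        mul_le_mul_of_nonneg_left (e1.trans (e3.trans e2)) hC
    _ = _ := by
        rw [Finset.inter_comm]; exact Finset.prod_inter_mul_prod_sdiff Q K _

theorem P_mem {m : ℕ} (hm : 2 ≤ m) (hh : 2 < h (P m)) : P m ∈ B₁ := by
  have hP := P_pos m
  have hP' : (0 : ℝ) < P m := by exact_mod_cast hP
  refine ⟨odd_P m, ⟨hP, ?_⟩, ?_⟩
  · unfold h at hh
    rw [lt_div_iff₀ hP'] at hh
    exact_mod_cast hh.le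
  · intro k hk hodd hnd
    have hk0 := hnd.1
    have h1 := H_le hm hk0 hk hodd
    have h2 : 0 < S (P m) := by
      unfold S
      have := h_le_H m
      linarith
    have h3 : S k ≤ S (P m) := by unfold S; linarith
    have hs : Real.sqrt (k : ℝ) < Real.sqrt (P m : ℝ) :=
      Real.sqrt_lt_sqrt (Nat.cast_nonneg _) (by exact_mod_cast hk)
    unfold g
    calc S k * Real.sqrt k ≤ S (P m) * Real.sqrt k :=
          mul_le_mul_of_nonneg_right h3 (Real.sqrt_nonneg _)
      _ < _ := mul_lt_mul_of_pos_left hs h2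

theorem unbounded (C : ℝ) : ∃ n ∈ B₁, C < h n := by
  obtain ⟨m, hm, hC⟩ := h_P_large (max C 2)
  exact ⟨P m, P_mem hm (lt_of_le_of_lt (le_max_right _ _) hC), lt_of_le_of_lt (le_max_left _ _) hC⟩

theorem infinite_B : B₁.Infinite := by
  intro hfin
  obtain ⟨C, hC⟩ := (hfin.image h).bddAbove
  obtain ⟨n, hn, hn2⟩ := unbounded C
  exact absurd (hC (Set.mem_image_of_mem h hn)) (not_le.2 hn2)

/-- **Main theorem.** The set `B₁` of the record setters is infinite, and there are infinitely many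
indices `j` with `h(b j) < h(b (j + 1))`. -/
theorem result : B₁.Infinite ∧ {j : ℕ | h (b j) < h (b (j + 1))}.Infinite := by
  refine ⟨infinite_B, ?_⟩
  intro hfin
  obtain ⟨J, hJ⟩ := hfin.bddAbove
  have hmono : ∀ j, J < j → h (b (j + 1)) ≤ h (b j) := by
    intro j hj
    by_contra hcon
    push Not at hcon
    exact absurd (hJ hcon) (not_le.2 hj)
  have hle : ∀ i, h (b (J + 1 + i)) ≤ h (b (J + 1)) := by
    intro i
    induction i with
    | zero => simp
    | succ i ih => exact (hmono (J + 1 + i) (by omega)).trans ih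
  obtain ⟨C, hC⟩ := ((Finset.range (J + 2)).image (fun j => h (b j))).bddAbove
  obtain ⟨n, hn, hn2⟩ := unbounded C
  obtain ⟨j, hj⟩ : ∃ j, b j = n := by
    have h1 := Nat.range_nth_of_infinite (p := fun n => n ∈ B₁) infinite_B
    have h2 : n ∈ Set.range (Nat.nth (fun n => n ∈ B₁)) := h1.symm ▸ hn
    exact h2
  have hCJ : h (b (J + 1)) ≤ C := hC (by
    rw [Finset.mem_coe, Finset.mem_image]
    exact ⟨J + 1, by simp, rfl⟩)
  rcases Nat.lt_or_ge j (J + 2) with hlt | hge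
  · have : h (b j) ≤ C := hC (by
      rw [Finset.mem_coe, Finset.mem_image]
      exact ⟨j, by simpa using hlt, rfl⟩)
    rw [hj] at this
    linarith
  · have := hle (j - (J + 1))
    rw [show J + 1 + (j - (J + 1)) = j by omega, hj] at this
    linarith

end Pool.Agent.Results.MP_04e67f_nt.InfinitelyOften
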